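import Mathlib
import Pool.Agent.H30.LinE
import Pool.Agent.H30.LinB

set_option autoImplicit false

namespace Pool.Agent.Results.MP_0e046d_gt.Extent

open Set Filter Topology Cardinal

universe u

/-- The topology of pointwise convergence on the continuous real functions. -/
def ptw (X : Type u) [TopologicalSpace X] : TopologicalSpace C(X, ℝ) :=
  TopologicalSpace.induced (fun (f : C(X, ℝ)) (x : X) => f x) Pi.topologicalSpace

/-- The extent: `ω` plus the supremum of the sizes of the closed discrete subsets. -/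
noncomputable def extent (X : Type u) [TopologicalSpace X] : Cardinal.{u} :=
  ℵ₀ + ⨆ D : {D : Set X // IsClosed D ∧ DiscreteTopology D}, #D.1

lemma le (X Y : Type u) [TopologicalSpace X] [TopologicalSpace Y] [T1Space X] [T1Space Y]
    [NormalSpace Y] (φ : C(Y, ℝ) →ₗ[ℝ] C(X, ℝ)) (hφ : @IsInducing _ _ (ptw Y) (ptw X) φ) :
    extent Y ≤ extent X := by
  have h : ℵ₀ ≤ extent X := self_le_add_right _ _
  refine (add_le_add h (ciSup_le' fun D => ?_)).trans (add_eq_self h).le
  refine H30.LinL.mainE h φ φ.map_zero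
    (H30.LinL.suppP φ (@IsInducing.continuous _ _ _ (ptw X) (ptw Y) hφ)) (H30.LinL.suppQ φ hφ)
    (fun A a1 a2 => ?_) D.1 D.2.1 ⟨D.2.2⟩
  exact (le_ciSup (f := fun D : {D : Set X // IsClosed D ∧ DiscreteTopology D} => #D.1)
    (bddAbove_range _) ⟨A, a1, a2.to_subtype⟩).trans (self_le_add_left _ _)

theorem result (X Y : Type u) [TopologicalSpace X] [TopologicalSpace Y] [T35Space X] [T35Space Y] :
    (NormalSpace Y → ∀ φ : C(Y, ℝ) →ₗ[ℝ] C(X, ℝ), @IsEmbedding _ _ (ptw Y) (ptw X) φ →
      extent Y ≤ extent X) ∧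
    (NormalSpace X → NormalSpace Y → ∀ φ : C(X, ℝ) →ₗ[ℝ] C(Y, ℝ),
      @IsHomeomorph _ _ (ptw X) (ptw Y) φ → extent X = extent Y) := by
  refine ⟨fun _ φ h => le X Y φ (@IsEmbedding.isInducing _ _ _ (ptw Y) (ptw X) h),
    fun _ _ φ h => le_antisymm (le Y X φ (@IsHomeomorph.isInducing _ _ (ptw X) (ptw Y) _ h))
    (le X Y (LinearEquiv.ofBijective φ (@IsHomeomorph.bijective _ _ (ptw X) (ptw Y) _ h)).symm ?_)⟩
  letI := ptw X
  letI := ptw Y
  convert (h.homeomorph φ).symm.isInducing
  funext g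
  exact h.injective (((LinearEquiv.ofBijective φ h.bijective).apply_symm_apply g).trans
    ((h.homeomorph φ).apply_symm_apply g).symm)

end Pool.Agent.Results.MP_0e046d_gt.Extent
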